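import Mathlib
import Pool.Agent.R364.NoisyB

/-!
MP_4e78b4_co, Q1: the largest noisy `(k,l)`-sum-free sets in cyclic groups for interval noise.
We prove the formula: the maximum size is `max 0 L` for all `n ≥ 1`, `k > l ≥ 1`, `c ≥ 2`.
-/

set_option autoImplicit false

open scoped Pointwise
open Finset

namespace Pool.Agent.Results.MP_4e78b4_co.IntervalNoiseFormula

/-- the `m`-fold sumset `A + ... + A` in `Z/nZ` (the `0`-fold one is `{0}`) -/
def sumset {n : ℕ} (A : Finset (ZMod n)) : ℕ → Finset (ZMod n)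
  | 0 => {0}
  | m + 1 => sumset A m + A

/-- the noise `C = {0, 1, ..., c - 1}` read modulo `n` -/
def noise (n c : ℕ) : Finset (ZMod n) := (Finset.range c).image (fun i : ℕ => (i : ZMod n))

/-- `m *_C A = mA + (m-1)C` -/
def noisySum {n : ℕ} (C A : Finset (ZMod n)) (m : ℕ) : Finset (ZMod n) :=
  sumset A m + sumset C (m - 1)

/-- `A` is `C`-`(k,l)`-sum-free for the noise `C = {0, ..., c - 1}` -/
def NoisySumFree (n k l c : ℕ) (A : Finset (ZMod n)) : Prop :=
  Disjoint (noisySum (noise n c) A k) (noisySum (noise n c) A l)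

/-- `δ = gcd(n, k - l)` -/
def del (n k l : ℕ) : ℤ := (Nat.gcd n (k - l) : ℕ)

/-- `χ = ⌊(n + 2(c-2))/(k+l)⌋ - (c-2)` -/
def chi (n k l c : ℕ) : ℤ := ((n : ℤ) + 2 * ((c : ℤ) - 2)) / ((k : ℤ) + l) - ((c : ℤ) - 2)

/-- `r ∈ {0, ..., δ - 1}`: the residue of `-kχ - (k-1)(c-2)` modulo `δ` -/
def res (n k l c : ℕ) : ℤ :=
  (-(k : ℤ) * chi n k l c - ((k : ℤ) - 1) * ((c : ℤ) - 2)) % del n k l

/-- `L = ⌊(n + 2(c-2) - r)/(k+l)⌋ - (c-2)` -/
def Len (n k l c : ℕ) : ℤ :=
  ((n : ℤ) + 2 * ((c : ℤ) - 2) - res n k l c) / ((k : ℤ) + l) - ((c : ℤ) - 2)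

open Pool.Agent.R364.Noisy in
theorem noisySum_eq {n : ℕ} [NeZero n] (C A : Finset (ZMod n)) (m : ℕ) :
    noisySum C A (m + 1) = it A (A + C) m := by
  have h : ∀ j : ℕ, sumset A (j + 1) + sumset C j = it A (A + C) j := by
    intro j
    induction j with
    | zero =>
      show ({0} + A) + {0} = A
      rw [add_zero_set, add_comm, add_zero_set]
    | succ j ih =>
      show (sumset A (j + 1) + A) + (sumset C j + C) = it A (A + C) j + (A + C)
      rw [add_add_add_comm, ih]
  exact h m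

theorem arith_upper (n k l c : ℕ) (hl : 1 ≤ l) (hkl : l < k)
    (a y : ℤ) (hy : del n k l ∣ y) (h1 : (l : ℤ) * a + ((l : ℤ) - 1) * ((c : ℤ) - 2) ≤ y)
    (h2 : y ≤ (n : ℤ) - (k : ℤ) * a - ((k : ℤ) - 1) * ((c : ℤ) - 2)) : a ≤ Len n k l c := by
  have hδpos : 0 < del n k l := by
    unfold del
    exact_mod_cast Nat.gcd_pos_of_pos_right _ (by omega)
  have hδle : del n k l ≤ (k : ℤ) - l := by
    unfold del
    have := Nat.gcd_le_right n (show 0 < k - l by omega)
    omega
  have hδn : del n k l ∣ (n : ℤ) := by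
    unfold del
    exact_mod_cast Nat.gcd_dvd_left n (k - l)
  have hr0 : 0 ≤ res n k l c := Int.emod_nonneg _ (ne_of_gt hδpos)
  have hr1 : res n k l c < del n k l := Int.emod_lt_of_pos _ hδpos
  have hD : (0 : ℤ) < (k : ℤ) + l := by positivity
  set D : ℤ := (k : ℤ) + l with hDdef
  set N : ℤ := (n : ℤ) + 2 * ((c : ℤ) - 2) with hN
  set g : ℤ := (c : ℤ) - 2 with hg
  have hbase : D * (a + g) ≤ N := by rw [hDdef, hN]; nlinarith
  have hq : a + g ≤ N / D := by
    rw [Int.le_ediv_iff_mul_le hD]; linarith [mul_comm D (a + g)]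
  have hNd : N / D * D ≤ N := Int.ediv_mul_le N (ne_of_gt hD)
  have hLen : Len n k l c = (N - res n k l c) / D - g := by
    unfold Len; rw [hN, hDdef, hg]
  rw [hLen]
  have goal : a + g ≤ (N - res n k l c) / D := by
    rw [Int.le_ediv_iff_mul_le hD]
    rcases lt_or_eq_of_le hq with hlt | heq
    · have h3 : (a + g + 1) * D ≤ N / D * D := by
        apply mul_le_mul_of_nonneg_right _ (le_of_lt hD)
        omega
      have h4 : (a + g + 1) * D = (a + g) * D + D := by ring
      have : (0:ℤ) ≤ l := by positivity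
      omega
    · -- a = χ
      have hchi : chi n k l c = a := by
        unfold chi
        rw [← hN, ← hDdef, ← hg, ← heq]; ring
      have hcong : del n k l ∣ ((n : ℤ) - (k : ℤ) * a - ((k : ℤ) - 1) * g) - res n k l c := by
        have h5 : del n k l ∣ (-(k : ℤ) * chi n k l c - ((k : ℤ) - 1) * g) - res n k l c := by
          unfold res
          exact Int.dvd_self_sub_emod
        rw [hchi] at h5
        have h6 := dvd_add hδn h5
        have e : (n : ℤ) + (-(k : ℤ) * a - ((k : ℤ) - 1) * g - res n k l c) =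
            ((n : ℤ) - (k : ℤ) * a - ((k : ℤ) - 1) * g) - res n k l c := by ring
        rwa [e] at h6
      have h7 : del n k l ∣ ((n : ℤ) - (k : ℤ) * a - ((k : ℤ) - 1) * g - y) - res n k l c := by
        have := dvd_sub hcong hy
        have e : ((n : ℤ) - (k : ℤ) * a - ((k : ℤ) - 1) * g) - res n k l c - y =
          ((n : ℤ) - (k : ℤ) * a - ((k : ℤ) - 1) * g - y) - res n k l c := by ring
        rwa [e] at this
      have h8 : res n k l c ≤ (n : ℤ) - (k : ℤ) * a - ((k : ℤ) - 1) * g - y := by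
        obtain ⟨w, hw⟩ := h7
        by_contra hlt
        push Not at hlt
        have hwneg : w < 0 := by
          by_contra hw0
          push Not at hw0
          have : 0 ≤ del n k l * w := mul_nonneg (le_of_lt hδpos) hw0
          omega
        have : del n k l * w ≤ del n k l * (-1) :=
          mul_le_mul_of_nonneg_left (by omega) (le_of_lt hδpos)
        omega
      have e2 : (a + g) * D = (k : ℤ) * a + (l : ℤ) * a + (k : ℤ) * g + (l : ℤ) * g := by
        rw [hDdef]; ring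
      have e3 : ((k : ℤ) - 1) * g = (k : ℤ) * g - g := by ring
      have e4 : ((l : ℤ) - 1) * g = (l : ℤ) * g - g := by ring
      rw [e3] at h8
      rw [e4] at h1
      rw [e2, hN]
      omega
  omega

theorem arith_lower (n k l c : ℕ) (hl : 1 ≤ l) (hkl : l < k) :
    ∃ y : ℤ, del n k l ∣ y ∧
      (l : ℤ) * Len n k l c + ((l : ℤ) - 1) * ((c : ℤ) - 2) ≤ y ∧
      y ≤ (n : ℤ) - (k : ℤ) * Len n k l c - ((k : ℤ) - 1) * ((c : ℤ) - 2) := by
  have hδpos : 0 < del n k l := by
    unfold del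
    exact_mod_cast Nat.gcd_pos_of_pos_right _ (by omega)
  have hδle : del n k l ≤ (k : ℤ) - l := by
    unfold del
    have := Nat.gcd_le_right n (show 0 < k - l by omega)
    omega
  have hδn : del n k l ∣ (n : ℤ) := by
    unfold del
    exact_mod_cast Nat.gcd_dvd_left n (k - l)
  have hr0 : 0 ≤ res n k l c := Int.emod_nonneg _ (ne_of_gt hδpos)
  have hr1 : res n k l c < del n k l := Int.emod_lt_of_pos _ hδpos
  have hD : (0 : ℤ) < (k : ℤ) + l := by positivity
  have hlnn : (0 : ℤ) ≤ l := by positivity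
  set D : ℤ := (k : ℤ) + l with hDdef
  set N : ℤ := (n : ℤ) + 2 * ((c : ℤ) - 2) with hN
  set g : ℤ := (c : ℤ) - 2 with hg
  set a : ℤ := Len n k l c with ha
  have hLen : a + g = (N - res n k l c) / D := by
    rw [ha]; unfold Len; rw [← hN, ← hDdef, ← hg]; ring
  have hmul : (a + g) * D ≤ N - res n k l c := by
    rw [hLen]; exact Int.ediv_mul_le _ (ne_of_gt hD)
  have e2 : (a + g) * D = (k : ℤ) * a + (l : ℤ) * a + (k : ℤ) * g + (l : ℤ) * g := by
    rw [hDdef]; ring
  have e3 : ((k : ℤ) - 1) * g = (k : ℤ) * g - g := by ring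
  have e4 : ((l : ℤ) - 1) * g = (l : ℤ) * g - g := by ring
  set hi : ℤ := (n : ℤ) - (k : ℤ) * a - ((k : ℤ) - 1) * g with hhi
  by_cases hcase : a + g = N / D
  · have hchi : chi n k l c = a := by
      unfold chi
      rw [← hN, ← hDdef, ← hg, ← hcase]; ring
    have hcong : del n k l ∣ hi - res n k l c := by
      have h5 : del n k l ∣ (-(k : ℤ) * chi n k l c - ((k : ℤ) - 1) * g) - res n k l c := by
        unfold res
        exact Int.dvd_self_sub_emod
      rw [hchi] at h5
      have h6 := dvd_add hδn h5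
      have e : (n : ℤ) + (-(k : ℤ) * a - ((k : ℤ) - 1) * g - res n k l c) =
          hi - res n k l c := by rw [hhi]; ring
      rwa [e] at h6
    refine ⟨hi - res n k l c, hcong, ?_, by omega⟩
    rw [e4, hhi, e3]
    omega
  · have hlt : a + g < N / D := by
      refine lt_of_le_of_ne ?_ hcase
      rw [hLen]
      exact Int.ediv_le_ediv hD (by omega)
    have h3 : (a + g + 1) * D ≤ N / D * D := by
      apply mul_le_mul_of_nonneg_right _ (le_of_lt hD)
      omega
    have hNd : N / D * D ≤ N := Int.ediv_mul_le N (ne_of_gt hD)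
    have h4 : (a + g + 1) * D = (a + g) * D + D := by ring
    have hm0 := Int.emod_nonneg hi (ne_of_gt hδpos)
    have hm1 := Int.emod_lt_of_pos hi hδpos
    refine ⟨hi - hi % del n k l, Int.dvd_self_sub_emod, ?_, by omega⟩
    rw [e4]
    have : hi = (n : ℤ) - (k : ℤ) * a - ((k : ℤ) * g - g) := by rw [hhi, e3]
    omega

open Pool.Agent.R364.Noisy in
/-- an interval of length `a` is sum-free if a suitable multiple of `gcd(n, k-l)` exists -/
theorem interval_sumFree (n k l c a : ℕ) [NeZero n] (hl : 1 ≤ l) (hkl : l < k) (hc : 2 ≤ c)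
    (ha : 1 ≤ a)
    (y : ℤ) (hy : del n k l ∣ y) (h1 : (l : ℤ) * a + ((l : ℤ) - 1) * ((c : ℤ) - 2) ≤ y)
    (h2 : y ≤ (n : ℤ) - (k : ℤ) * a - ((k : ℤ) - 1) * ((c : ℤ) - 2)) :
    ∃ A : Finset (ZMod n), NoisySumFree n k l c A ∧ A.card = a := by
  -- solve `(k - l) x ≡ y (mod n)`
  obtain ⟨w, hw⟩ := hy
  have hbez := Nat.gcd_eq_gcd_ab n (k - l)
  set u := Nat.gcdA n (k - l)
  set v := Nat.gcdB n (k - l)
  have hx : (((k - l : ℕ) : ℤ) * (v * w) : ℤ) = y - (n : ℤ) * (u * w) := by
    rw [hw]; unfold del; rw [hbez]; ring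
  set x : ZMod n := ((v * w : ℤ) : ZMod n) with hxdef
  have hkl' : ((k : ZMod n) - (l : ZMod n)) * x = ((y : ℤ) : ZMod n) := by
    have h3 : ((((k - l : ℕ) : ℤ) * (v * w) : ℤ) : ZMod n) = ((y - (n : ℤ) * (u * w) : ℤ) : ZMod n) := by
      rw [hx]
    push_cast [Nat.cast_sub (le_of_lt hkl)] at h3
    rw [hxdef]
    push_cast
    rw [h3]
    simp
  obtain ⟨q, rfl⟩ : ∃ q, l = q + 1 := ⟨l - 1, by omega⟩
  obtain ⟨m, rfl⟩ : ∃ m, k = m + 1 := ⟨k - 1, by omega⟩
  obtain ⟨g, rfl⟩ : ∃ g, c = g + 2 := ⟨c - 2, by omega⟩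
  obtain ⟨b, rfl⟩ : ∃ b, a = b + 1 := ⟨a - 1, by omega⟩
  set A : Finset (ZMod n) := (Finset.range (b + 1)).image (fun i : ℕ => x + (i : ZMod n)) with hA
  have hform : ∀ j : ℕ, ∀ z ∈ it A (A + itv n (g + 2)) j,
      ∃ i : ℕ, i ≤ b + j * (b + g + 1) ∧ z = ((j : ZMod n) + 1) * x + (i : ZMod n) := by
    intro j
    induction j with
    | zero =>
      intro z hz
      obtain ⟨i, hi, rfl⟩ := Finset.mem_image.1 (show z ∈ A from hz)
      refine ⟨i, ?_, ?_⟩
      · have := Finset.mem_range.1 hi; omega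
      · rw [Nat.cast_zero]; ring
    | succ j ih =>
      intro z hz
      obtain ⟨z1, hz1, z2, hz2, rfl⟩ := Finset.mem_add.1
        (show z ∈ it A (A + itv n (g + 2)) j + (A + itv n (g + 2)) from hz)
      obtain ⟨z3, hz3, z4, hz4, rfl⟩ := Finset.mem_add.1 hz2
      obtain ⟨i1, hi1, rfl⟩ := ih z1 hz1
      obtain ⟨i2, hi2, rfl⟩ := Finset.mem_image.1 hz3
      obtain ⟨i3, hi3, rfl⟩ := mem_itv.1 hz4
      have hi2' := Finset.mem_range.1 hi2
      refine ⟨i1 + i2 + i3, ?_, ?_⟩
      · have e : b + (j + 1) * (b + g + 1) = b + j * (b + g + 1) + b + (g + 1) := by ring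
        rw [e]; omega
      · push_cast; ring
  have hcast : ((g + 2 : ℕ) : ℤ) - 2 = (g : ℤ) := by push_cast; ring
  rw [hcast] at h1 h2
  push_cast at h1 h2
  refine ⟨A, ?_, ?_⟩
  · unfold NoisySumFree
    rw [noisySum_eq, noisySum_eq, Finset.disjoint_left]
    intro z hz1 hz2
    have hz1' : z ∈ it A (A + itv n (g + 2)) m := hz1
    have hz2' : z ∈ it A (A + itv n (g + 2)) q := hz2
    obtain ⟨i, hi, e1⟩ := hform m z hz1'
    obtain ⟨j, hj, e2⟩ := hform q z hz2'
    have h3 : ((y - ((j : ℤ) - (i : ℤ)) : ℤ) : ZMod n) = 0 := by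
      push_cast
      rw [← hkl']
      push_cast
      rw [e1] at e2
      linear_combination e2
    rw [ZMod.intCast_zmod_eq_zero_iff_dvd] at h3
    have hiZ : (i : ℤ) ≤ b + m * (b + g + 1) := by exact_mod_cast hi
    have hjZ : (j : ℤ) ≤ b + q * (b + g + 1) := by exact_mod_cast hj
    have hpos : 0 < y - ((j : ℤ) - (i : ℤ)) := by nlinarith
    have hlt : y - ((j : ℤ) - (i : ℤ)) < n := by nlinarith
    have := Int.le_of_dvd hpos h3
    omega
  · rw [hA, Finset.card_image_of_injOn, Finset.card_range]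
    intro i hi j hj hij
    rw [Finset.mem_coe, Finset.mem_range] at hi hj
    have hn : ((b : ℤ) + 1) ≤ n := by
      have h5 : (0 : ℤ) ≤ (q : ℤ) * b := by positivity
      have h6 : (0 : ℤ) ≤ (m : ℤ) * b := by positivity
      have h7 : (0 : ℤ) ≤ (q : ℤ) * g := by positivity
      have h8 : (0 : ℤ) ≤ (m : ℤ) * g := by positivity
      nlinarith
    have hij' : (i : ZMod n) = (j : ZMod n) := add_left_cancel hij
    rw [ZMod.natCast_eq_natCast_iff'] at hij'
    rw [Nat.mod_eq_of_lt (by omega), Nat.mod_eq_of_lt (by omega)] at hij'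
    exact hij'

open Pool.Agent.R364.Noisy in
/-- **Answer to MP_4e78b4_co, Q1 (the formula holds).** For all `n ≥ 1`, `k > l ≥ 1`, `c ≥ 2`
the maximum size of a `{0,...,c-1}`-`(k,l)`-sum-free subset of `Z/nZ` is `max 0 L`. -/
theorem result (n k l c : ℕ) (hn : 1 ≤ n) (hl : 1 ≤ l) (hkl : l < k) (hc : 2 ≤ c) :
    IsGreatest {m : ℤ | ∃ A : Finset (ZMod n), NoisySumFree n k l c A ∧ (A.card : ℤ) = m}
      (max 0 (Len n k l c)) := by
  have : NeZero n := ⟨by omega⟩
  constructor
  · rcases le_or_gt (Len n k l c) 0 with h | h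
    · rw [max_eq_left h]
      refine ⟨∅, ?_, by simp⟩
      unfold NoisySumFree
      obtain ⟨q, rfl⟩ : ∃ q, l = q + 1 := ⟨l - 1, by omega⟩
      have : noisySum (noise n c) ∅ (q + 1) = ∅ := by
        unfold noisySum
        show sumset ∅ q + ∅ + _ = ∅
        simp
      rw [this]
      exact Finset.disjoint_empty_right _
    · rw [max_eq_right (le_of_lt h)]
      obtain ⟨y, hy, h1, h2⟩ := arith_lower n k l c hl hkl
      obtain ⟨a, ha⟩ : ∃ a : ℕ, (a : ℤ) = Len n k l c := ⟨(Len n k l c).toNat, by omega⟩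
      rw [← ha] at h1 h2
      obtain ⟨A, hA, hAc⟩ := interval_sumFree n k l c a hl hkl hc (by omega) y hy h1 h2
      exact ⟨A, hA, by rw [hAc, ha]⟩
  · rintro m' ⟨A, hA, rfl⟩
    rcases A.eq_empty_or_nonempty with h | hne
    · rw [h]; simp
    · apply le_max_of_le_right
      obtain ⟨q, rfl⟩ : ∃ q, l = q + 1 := ⟨l - 1, by omega⟩
      obtain ⟨m, rfl⟩ : ∃ m, k = m + 1 := ⟨k - 1, by omega⟩
      obtain ⟨g, rfl⟩ : ∃ g, c = g + 2 := ⟨c - 2, by omega⟩
      have hd : Disjoint (it A (A + itv n (g + 2)) m) (it A (A + itv n (g + 2)) q) := by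
        have := hA
        unfold NoisySumFree at this
        rw [noisySum_eq, noisySum_eq] at this
        exact this
      obtain ⟨y, hy, h1, h2⟩ := upper A hne g m q (by omega) hd
      apply arith_upper n (m + 1) (q + 1) (g + 2) hl hkl (A.card : ℤ) (y : ℤ)
      · unfold del
        have e : m + 1 - (q + 1) = m - q := by omega
        rw [e]
        exact_mod_cast hy
      · have h1' : (((q + 1) * A.card + q * g : ℕ) : ℤ) ≤ (y : ℤ) := by exact_mod_cast h1
        push_cast at h1' ⊢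
        linarith
      · have h2' : ((y + ((m + 1) * A.card + m * g) : ℕ) : ℤ) ≤ (n : ℤ) := by exact_mod_cast h2
        push_cast at h2' ⊢
        linarith

end Pool.Agent.Results.MP_4e78b4_co.IntervalNoiseFormula
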